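import Pool.Agent.H586.AF.B

/-!
# Project AF: the jet of the gauge fixed Hessian at zero field
-/

set_option autoImplicit false
set_option linter.unusedVariables false

open MeasureTheory Matrix Finset Filter Topology

namespace Pool.Agent.H632.AF

open Pool.Agent.H586.AF

noncomputable section

/-- entrywise first derivative at `0` -/
def J1 {m n : Type} (A : ℝ → Matrix m n ℂ) : Matrix m n ℂ :=
  Matrix.of fun i j => deriv (fun θ => A θ i j) 0

/-- entrywise second derivative at `0` -/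
def J2 {m n : Type} (A : ℝ → Matrix m n ℂ) : Matrix m n ℂ :=
  Matrix.of fun i j => deriv (deriv fun θ => A θ i j) 0

theorem ld_eq {n : Type} [Fintype n] [DecidableEq n] (A : ℝ → Matrix n n ℂ) :
    ld A = ((A 0)⁻¹ * J2 A).trace - ((A 0)⁻¹ * J1 A * (A 0)⁻¹ * J1 A).trace := rfl

theorem tr_blocks {m n : Type} [Fintype m] [Fintype n] (A : Matrix m m ℂ) (B : Matrix m n ℂ)
    (C : Matrix n m ℂ) (D : Matrix n n ℂ) : (fromBlocks A B C D).trace = A.trace + D.trace := by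
  unfold Matrix.trace
  rw [Fintype.sum_sum_type]
  rfl

/-- the second derivative of `log det` of a block matrix which is block diagonal at `0` -/
theorem ld_blocks {m n : Type} [Fintype m] [DecidableEq m] [Fintype n] [DecidableEq n]
    (P : ℝ → Matrix m m ℂ) (X : ℝ → Matrix m n ℂ) (Y : ℝ → Matrix n m ℂ) (Q : ℝ → Matrix n n ℂ)
    (hX : X 0 = 0) (hY : Y 0 = 0) (hP : IsUnit (P 0)) (hQ : IsUnit (Q 0)) :
    ld (fun θ => fromBlocks (P θ) (X θ) (Y θ) (Q θ)) =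
      ld P + ld Q - 2 * ((P 0)⁻¹ * J1 X * (Q 0)⁻¹ * J1 Y).trace := by
  have h1 : J1 (fun θ => fromBlocks (P θ) (X θ) (Y θ) (Q θ)) =
      fromBlocks (J1 P) (J1 X) (J1 Y) (J1 Q) := by
    ext i j; rcases i with i | i <;> rcases j with j | j <;> rfl
  have h2 : J2 (fun θ => fromBlocks (P θ) (X θ) (Y θ) (Q θ)) =
      fromBlocks (J2 P) (J2 X) (J2 Y) (J2 Q) := by
    ext i j; rcases i with i | i <;> rcases j with j | j <;> rfl
  have h0 : (fromBlocks (P 0) (X 0) (Y 0) (Q 0))⁻¹ = fromBlocks (P 0)⁻¹ 0 0 (Q 0)⁻¹ := by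
    rw [hX, hY, Matrix.inv_fromBlocks_zero₂₁_of_isUnit_iff _ _ _ ⟨fun _ => hQ, fun _ => hP⟩]
    simp
  have hc : ((Q 0)⁻¹ * J1 Y * ((P 0)⁻¹ * J1 X)).trace = ((P 0)⁻¹ * J1 X * (Q 0)⁻¹ * J1 Y).trace := by
    rw [Matrix.trace_mul_comm, ← Matrix.mul_assoc]
  rw [ld_eq, h1, h2, ld_eq P, ld_eq Q]
  show ((fromBlocks (P 0) (X 0) (Y 0) (Q 0))⁻¹ * _).trace -
    ((fromBlocks (P 0) (X 0) (Y 0) (Q 0))⁻¹ * _ * (fromBlocks (P 0) (X 0) (Y 0) (Q 0))⁻¹ * _).trace = _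
  rw [h0, Matrix.mul_assoc (fromBlocks (P 0)⁻¹ 0 0 (Q 0)⁻¹ * _), fromBlocks_multiply, fromBlocks_multiply,
    fromBlocks_multiply, tr_blocks, tr_blocks]
  simp only [Matrix.zero_mul, add_zero, zero_add, Matrix.trace_add]
  rw [hc, ← Matrix.mul_assoc ((P 0)⁻¹ * J1 P), ← Matrix.mul_assoc ((P 0)⁻¹ * J1 X),
    ← Matrix.mul_assoc ((Q 0)⁻¹ * J1 Q)]
  ring

/-- all entries are twice continuously differentiable -/
def CD {m n : Type} (A : ℝ → Matrix m n ℂ) : Prop := ∀ i j, ContDiff ℝ 2 fun θ => A θ i j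

section CD

variable {m n p : Type}

theorem CD.const (A : Matrix m n ℂ) : CD (fun _ => A) := fun _ _ => contDiff_const

theorem CD.add {A B : ℝ → Matrix m n ℂ} (hA : CD A) (hB : CD B) : CD (fun θ => A θ + B θ) :=
  fun i j => (hA i j).add (hB i j)

theorem CD.sub {A B : ℝ → Matrix m n ℂ} (hA : CD A) (hB : CD B) : CD (fun θ => A θ - B θ) :=
  fun i j => (hA i j).sub (hB i j)

theorem CD.smul {c : ℝ → ℂ} {A : ℝ → Matrix m n ℂ} (hc : ContDiff ℝ 2 c) (hA : CD A) :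
    CD (fun θ => c θ • A θ) :=
  fun i j => hc.mul (hA i j)

theorem CD.mul [Fintype n] {A : ℝ → Matrix m n ℂ} {B : ℝ → Matrix n p ℂ} (hA : CD A) (hB : CD B) :
    CD (fun θ => A θ * B θ) := fun i j => by
  simp only [Matrix.mul_apply]
  exact ContDiff.sum fun k _ => (hA i k).mul (hB k j)

theorem CD.star {A : ℝ → Matrix m n ℂ} (hA : CD A) : CD (fun θ => (A θ)ᴴ) := fun i j => by
  have h := Complex.conjCLE.contDiff (n := 2) |>.comp (hA j i)
  exact h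

theorem CD.k4 {a b c d a' b' c' d' : Type} {A : ℝ → Matrix a a' ℂ} {B : ℝ → Matrix b b' ℂ}
    {C : ℝ → Matrix c c' ℂ} {D : ℝ → Matrix d d' ℂ} (hA : CD A) (hB : CD B) (hC : CD C) (hD : CD D) :
    CD (fun θ => k4 (A θ) (B θ) (C θ) (D θ)) := fun i j =>
  (((hA _ _).mul (hB _ _)).mul (hC _ _)).mul (hD _ _)

theorem CD.blocks {m n m' n' : Type} {P : ℝ → Matrix m m' ℂ} {X : ℝ → Matrix m n' ℂ}
    {Y : ℝ → Matrix n m' ℂ} {Q : ℝ → Matrix n n' ℂ} (hP : CD P) (hX : CD X) (hY : CD Y) (hQ : CD Q) :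
    CD (fun θ => fromBlocks (P θ) (X θ) (Y θ) (Q θ)) := fun i j => by
  rcases i with i | i <;> rcases j with j | j
  · exact hP i j
  · exact hX i j
  · exact hY i j
  · exact hQ i j

theorem CD.cols {m n n' : Type} {P : ℝ → Matrix m n ℂ} {X : ℝ → Matrix m n' ℂ}
    (hP : CD P) (hX : CD X) : CD (fun θ => fromCols (P θ) (X θ)) := fun i j => by
  rcases j with j | j
  · exact hP i j
  · exact hX i j

theorem CD.rows {m m' n : Type} {P : ℝ → Matrix m n ℂ} {X : ℝ → Matrix m' n ℂ}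
    (hP : CD P) (hX : CD X) : CD (fun θ => fromRows (P θ) (X θ)) := fun i j => by
  rcases i with i | i
  · exact hP i j
  · exact hX i j

end CD

theorem CD.phs {n : ℕ} (s x0 : ℝ) : CD (fun θ => (phs θ s x0 : Matrix (Fin n) (Fin n) ℂ)) := by
  intro i j
  unfold Pool.Agent.H586.AF.phs
  simp only [Matrix.diagonal_apply]
  split_ifs
  · have h1 : ContDiff ℝ 2 (fun θ : ℝ => θ * s * (((i : ℕ) : ℝ) + x0)) :=
      (contDiff_id.mul contDiff_const).mul contDiff_const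
    have h2 : ContDiff ℝ 2 (fun θ : ℝ => ((θ * s * (((i : ℕ) : ℝ) + x0) : ℝ) : ℂ)) :=
      Complex.ofRealCLM.contDiff.comp h1
    exact (contDiff_const.mul h2).cexp
  · exact contDiff_const

theorem CD.covL {n1 n2 n3 n4 : ℕ} (x0 : ℝ) (A1 : Matrix (Fin n1) (Fin n1) ℝ)
    (A2 : Matrix (Fin n2) (Fin n2) ℝ) (A3 : Matrix (Fin n3) (Fin n3) ℝ)
    (A4 : Matrix (Fin n4) (Fin n4) ℝ) : CD (covL x0 A1 A2 A3 A4) := by
  unfold Pool.Agent.H586.AF.covL
  exact (((((CD.const _).add (CD.const _)).sub ((CD.phs 1 x0).k4 (CD.const _) (CD.const _)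
    (CD.const _))).sub ((CD.phs (-1) x0).k4 (CD.const _) (CD.const _) (CD.const _))).add
    (CD.const _)).add (CD.const _)

theorem cd_kap : ContDiff ℝ 2 kap := by
  unfold kap
  have h1 : ContDiff ℝ 2 (fun θ : ℝ => 2 - 2 * Real.cos (θ / 2)) :=
    contDiff_const.sub (contDiff_const.mul (Real.contDiff_cos.comp (contDiff_id.div_const _)))
  exact Complex.ofRealCLM.contDiff.comp h1

theorem cd_coef : ContDiff ℝ 2 (fun θ : ℝ => -(2 * Complex.I * ((Real.sin (θ / 4) : ℝ) : ℂ))) := by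
  have h1 : ContDiff ℝ 2 (fun θ : ℝ => Real.sin (θ / 4)) :=
    Real.contDiff_sin.comp (contDiff_id.div_const _)
  exact (contDiff_const.mul (Complex.ofRealCLM.contDiff.comp h1)).neg

/-- the second factor of `m12` -/
def wL (L : ℕ) (θ : ℝ) : Matrix (I1 L) (I2 L) ℂ :=
  k4 (phs θ (1 / 2) (1 / 2) * cx (nm L (L - 1))) (e1 L (L - 1))ᵀ 1 1 +
      k4 (phs θ (-(1 / 2)) (1 / 2) * cx (nm L (L - 1))) (e0 L (L - 1))ᵀ 1 1

theorem m12_eq (L : ℕ) (θ : ℝ) :
    m12 L θ = (-(2 * Complex.I * ((Real.sin (θ / 4) : ℝ) : ℂ))) • wL L θ := rfl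

theorem cd_wL (L : ℕ) : CD (wL L) := by
  unfold wL
  exact (((CD.phs _ _).mul (CD.const _)).k4 (CD.const _) (CD.const _) (CD.const _)).add
    (((CD.phs _ _).mul (CD.const _)).k4 (CD.const _) (CD.const _) (CD.const _))

theorem cd_m12 (L : ℕ) : CD (m12 L) := CD.smul cd_coef (cd_wL L)

theorem cd_m11 (L : ℕ) : CD (m11 L) := by
  unfold m11
  exact (CD.covL _ _ _ _ _).sub (CD.smul cd_kap (CD.const _))

theorem cd_m22 (L : ℕ) : CD (m22 L) := by
  unfold m22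
  exact (CD.covL _ _ _ _ _).sub (CD.smul cd_kap (CD.const _))

theorem cd_m33 (L : ℕ) : CD (m33 L) := CD.covL _ _ _ _ _

theorem cd_m44 (L : ℕ) : CD (m44 L) := CD.covL _ _ _ _ _

theorem cd_mH (L : ℕ) : CD (mH L) := by
  unfold mH
  exact (cd_m11 L).blocks ((cd_m12 L).cols (CD.const 0)) ((cd_m12 L).star.rows (CD.const 0))
    ((cd_m22 L).blocks (CD.const 0) (CD.const 0) (cd_m33 L))

theorem cd_mF (L : ℕ) : CD (mF L) := by
  unfold mF
  exact (cd_mH L).blocks (CD.const 0) (CD.const 0) (cd_m44 L)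

theorem cd_gV (L : ℕ) : CD (gV L) := by
  unfold gV
  refine (CD.const _).rows (CD.rows ?_ (CD.const _))
  unfold g2
  exact ((CD.phs _ _).k4 (CD.const _) (CD.const _) (CD.const _)).sub
    ((CD.phs _ _).k4 (CD.const _) (CD.const _) (CD.const _))

theorem cd_hC (L : ℕ) : CD (hC L) := by
  unfold hC
  exact (cd_mH L).sub ((cd_gV L).mul (cd_gV L).star)

/-! ### Values at zero -/

theorem phs_zero {n : ℕ} (s x0 : ℝ) : (phs 0 s x0 : Matrix (Fin n) (Fin n) ℂ) = 1 := by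
  unfold phs
  simp

theorem k4_apply {R a b c d a' b' c' d' : Type} [CommRing R] (A : Matrix a a' R) (B : Matrix b b' R)
    (C : Matrix c c' R) (D : Matrix d d' R) (x : a × b × c × d) (y : a' × b' × c' × d') :
    k4 A B C D x y = A x.1 y.1 * B x.2.1 y.2.1 * C x.2.2.1 y.2.2.1 * D x.2.2.2 y.2.2.2 := rfl

theorem cx_apply {m n : Type} (A : Matrix m n ℝ) (i : m) (j : n) : cx A i j = ((A i j : ℝ) : ℂ) := rfl

theorem one_cast {n : ℕ} (i j : Fin n) :
    (((1 : Matrix (Fin n) (Fin n) ℝ) i j : ℝ) : ℂ) = (1 : Matrix (Fin n) (Fin n) ℂ) i j := by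
  rw [Matrix.one_apply, Matrix.one_apply]
  split_ifs <;> simp

theorem cov_zero {n1 n2 n3 n4 : ℕ} (x0 : ℝ) (A1 : Matrix (Fin n1) (Fin n1) ℝ)
    (A2 : Matrix (Fin n2) (Fin n2) ℝ) (A3 : Matrix (Fin n3) (Fin n3) ℝ)
    (A4 : Matrix (Fin n4) (Fin n4) ℝ)
    (h : A2 = (Matrix.diagonal fun i => A2 i i) - tm n2 - (tm n2)ᵀ) :
    covL x0 A1 A2 A3 A4 0 = cx (ks A1 A2 A3 A4) := by
  ext x y
  have hA : ((A2 x.2.1 y.2.1 : ℝ) : ℂ) =
      (Matrix.diagonal (fun i => ((A2 i i : ℝ) : ℂ)) : Matrix (Fin n2) (Fin n2) ℂ) x.2.1 y.2.1 -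
        ((tm n2 x.2.1 y.2.1 : ℝ) : ℂ) - ((tm n2 y.2.1 x.2.1 : ℝ) : ℂ) := by
    have h1 := congrFun (congrFun h x.2.1) y.2.1
    rw [Matrix.sub_apply, Matrix.sub_apply, Matrix.transpose_apply] at h1
    rw [h1, Matrix.diagonal_apply, Matrix.diagonal_apply]
    push_cast
    split_ifs <;> simp
  rw [cx_apply]
  unfold covL ks
  rw [phs_zero, phs_zero]
  simp only [Matrix.add_apply, Matrix.sub_apply, k4_apply, cx_apply, Matrix.transpose_apply,
    Complex.ofReal_add, Complex.ofReal_mul, one_cast]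
  rw [hA]
  ring

theorem kap_zero : kap 0 = 0 := by unfold kap; simp

theorem m12_zero (L : ℕ) : m12 L 0 = 0 := by rw [m12_eq]; simp

theorem det_cx {n : Type} [Fintype n] [DecidableEq n] (A : Matrix n n ℝ) :
    (cx A).det = ((A.det : ℝ) : ℂ) :=
  (RingHom.map_det Complex.ofRealHom A).symm

theorem inv_cx {n : Type} [Fintype n] [DecidableEq n] (A : Matrix n n ℝ) (hA : A.det ≠ 0) :
    (cx A)⁻¹ = cx A⁻¹ := by
  apply Matrix.inv_eq_right_inv
  have h1 : A * A⁻¹ = 1 := Matrix.mul_nonsing_inv A (isUnit_iff_ne_zero.2 hA)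
  have h2 : cx A * cx A⁻¹ = cx (A * A⁻¹) := (Matrix.map_mul (f := Complex.ofRealHom)).symm
  rw [h2, h1]
  ext i j
  show ((((1 : Matrix n n ℝ) i j : ℝ)) : ℂ) = _
  rw [Matrix.one_apply, Matrix.one_apply]
  split_ifs <;> simp

theorem trace_cx {n : Type} [Fintype n] (A : Matrix n n ℝ) : (cx A).trace = ((A.trace : ℝ) : ℂ) := by
  unfold Matrix.trace
  rw [Complex.ofReal_sum]
  rfl

/-! ### Derivatives at zero -/

theorem hd_kap (θ : ℝ) : HasDerivAt kap ((Real.sin (θ / 2) : ℝ) : ℂ) θ := by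
  have h1 : HasDerivAt (fun θ : ℝ => 2 - 2 * Real.cos (θ / 2)) (Real.sin (θ / 2)) θ := by
    have h := (((hasDerivAt_id θ).div_const 2).cos.const_mul 2).const_sub 2
    have e : -(2 * (-Real.sin (id θ / 2) * (1 / 2))) = Real.sin (θ / 2) := by
      show -(2 * (-Real.sin (θ / 2) * (1 / 2))) = _
      ring
    rw [e] at h
    exact h
  exact h1.ofReal_comp

theorem hd_sin2 : HasDerivAt (fun θ : ℝ => ((Real.sin (θ / 2) : ℝ) : ℂ)) (1 / 2) 0 := by
  have h1 : HasDerivAt (fun θ : ℝ => Real.sin (θ / 2)) (1 / 2) 0 := by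
    have h := ((hasDerivAt_id (0 : ℝ)).div_const 2).sin
    have e : Real.cos (id (0 : ℝ) / 2) * (1 / 2) = 1 / 2 := by simp
    rw [e] at h
    exact h
  have h2 := h1.ofReal_comp
  have e : (((1 / 2 : ℝ)) : ℂ) = 1 / 2 := by push_cast; ring
  rw [e] at h2
  exact h2

theorem ld_sub_kap {n : Type} [Fintype n] [DecidableEq n] (A : ℝ → Matrix n n ℂ) (hA : CD A) :
    ld (fun θ => A θ - kap θ • (1 : Matrix n n ℂ)) = ld A - (1 / 2) * ((A 0)⁻¹).trace := by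
  have hdA : ∀ i j θ, DifferentiableAt ℝ (fun θ => A θ i j) θ := fun i j θ =>
    (hA i j).differentiable (by norm_num) θ
  have hdA2 : ∀ i j θ, DifferentiableAt ℝ (deriv fun θ => A θ i j) θ := fun i j θ =>
    ((contDiff_succ_iff_deriv (n := 1)).1 (by rw [one_add_one_eq_two]; exact hA i j)).2.2.differentiable
      (by norm_num) θ
  have hd : ∀ i j, deriv (fun θ => (A θ - kap θ • (1 : Matrix n n ℂ)) i j) =
      fun θ => deriv (fun θ => A θ i j) θ - ((Real.sin (θ / 2) : ℝ) : ℂ) * (1 : Matrix n n ℂ) i j := by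
    intro i j
    funext θ
    exact ((hdA i j θ).hasDerivAt.sub ((hd_kap θ).mul_const _)).deriv
  have h1 : J1 (fun θ => A θ - kap θ • (1 : Matrix n n ℂ)) = J1 A := by
    ext i j
    show deriv (fun θ => (A θ - kap θ • (1 : Matrix n n ℂ)) i j) 0 = deriv (fun θ => A θ i j) 0
    rw [hd i j]
    simp
  have h2 : J2 (fun θ => A θ - kap θ • (1 : Matrix n n ℂ)) = J2 A - (1 / 2 : ℂ) • (1 : Matrix n n ℂ) := by
    ext i j
    show deriv (deriv (fun θ => (A θ - kap θ • (1 : Matrix n n ℂ)) i j)) 0 =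
      deriv (deriv fun θ => A θ i j) 0 - (1 / 2 : ℂ) * (1 : Matrix n n ℂ) i j
    rw [hd i j]
    exact ((hdA2 i j 0).hasDerivAt.sub (hd_sin2.mul_const _)).deriv
  rw [ld_eq, h1, h2, ld_eq A]
  show ((A 0 - kap 0 • (1 : Matrix n n ℂ))⁻¹ * _).trace -
    ((A 0 - kap 0 • (1 : Matrix n n ℂ))⁻¹ * _ * (A 0 - kap 0 • (1 : Matrix n n ℂ))⁻¹ * _).trace = _
  rw [kap_zero, zero_smul, sub_zero, Matrix.mul_sub, Matrix.trace_sub, Matrix.mul_smul, Matrix.mul_one,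
    Matrix.trace_smul, smul_eq_mul]
  ring

theorem wL_zero (L : ℕ) : wL L 0 = cx (kN L) := by
  have h1 : (phs 0 (1 / 2) (1 / 2) : Matrix (Fin L) (Fin L) ℂ) * cx (nm L (L - 1)) =
      cx (nm L (L - 1)) := by rw [phs_zero]; exact Matrix.one_mul (cx (nm L (L - 1)))
  have h2 : (phs 0 (-(1 / 2)) (1 / 2) : Matrix (Fin L) (Fin L) ℂ) * cx (nm L (L - 1)) =
      cx (nm L (L - 1)) := by rw [phs_zero]; exact Matrix.one_mul (cx (nm L (L - 1)))
  have h0 : wL L 0 = k4 (cx (nm L (L - 1))) (e1 L (L - 1))ᵀ 1 1 +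
      k4 (cx (nm L (L - 1))) (e0 L (L - 1))ᵀ 1 1 :=
    congrArg₂ (· + ·) (congrArg (fun M => k4 M (e1 L (L - 1))ᵀ 1 1) h1)
      (congrArg (fun M => k4 M (e0 L (L - 1))ᵀ 1 1) h2)
  rw [h0]
  ext x y
  rw [cx_apply]
  unfold kN
  simp only [Matrix.add_apply, k4_apply, cx_apply, Matrix.transpose_apply,
    Complex.ofReal_mul, one_cast]
  have h3 : ((nm L (L - 1) y.2.1 x.2.1 : ℝ) : ℂ) =
      e0 L (L - 1) y.2.1 x.2.1 + e1 L (L - 1) y.2.1 x.2.1 := by
    unfold nm e0 e1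
    split_ifs <;> norm_num
  rw [h3]
  ring

theorem hd_coef : HasDerivAt (fun θ : ℝ => -(2 * Complex.I * ((Real.sin (θ / 4) : ℝ) : ℂ)))
    (-(Complex.I / 2)) 0 := by
  have h1 : HasDerivAt (fun θ : ℝ => Real.sin (θ / 4)) (1 / 4) 0 := by
    have h := ((hasDerivAt_id (0 : ℝ)).div_const 4).sin
    have e : Real.cos (id (0 : ℝ) / 4) * (1 / 4) = 1 / 4 := by simp
    rw [e] at h
    exact h
  have h2 := (h1.ofReal_comp.const_mul (2 * Complex.I)).neg
  have e : -(2 * Complex.I * (((1 / 4 : ℝ)) : ℂ)) = -(Complex.I / 2) := by push_cast; ring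
  rw [e] at h2
  exact h2

theorem hd_m12 (L : ℕ) (i : I1 L) (j : I2 L) :
    HasDerivAt (fun θ => m12 L θ i j) (-(Complex.I / 2) * ((kN L i j : ℝ) : ℂ)) 0 := by
  have h1 := (cd_wL L i j).differentiable (by norm_num) 0 |>.hasDerivAt
  have h2 := hd_coef.mul h1
  have e : -(Complex.I / 2) * wL L 0 i j + -(2 * Complex.I * ((Real.sin (0 / 4) : ℝ) : ℂ)) *
      deriv (fun θ => wL L θ i j) 0 = -(Complex.I / 2) * ((kN L i j : ℝ) : ℂ) := by
    rw [wL_zero]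
    simp
  rw [e] at h2
  exact h2

theorem J1_m12 (L : ℕ) : J1 (m12 L) = (-(Complex.I / 2)) • cx (kN L) := by
  ext i j
  exact (hd_m12 L i j).deriv

theorem J1_m12s (L : ℕ) : J1 (fun θ => (m12 L θ)ᴴ) = (Complex.I / 2) • cx (kN L)ᵀ := by
  ext i j
  have h := (hd_m12 L j i).star
  have e : star (-(Complex.I / 2) * ((kN L j i : ℝ) : ℂ)) = (Complex.I / 2) * ((kN L j i : ℝ) : ℂ) := by
    simp
    ring
  rw [e] at h
  exact h.deriv

theorem cx_mul {m n p : Type} [Fintype n] (A : Matrix m n ℝ) (B : Matrix n p ℝ) :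
    cx A * cx B = cx (A * B) := (Matrix.map_mul (f := Complex.ofRealHom)).symm

theorem tr_mixed {m n : Type} [Fintype m] [DecidableEq m] [Fintype n] [DecidableEq n]
    (G1 : Matrix m m ℝ) (N : Matrix m n ℝ) (G2 : Matrix n n ℝ) :
    (cx G1 * ((-(Complex.I / 2)) • cx N) * cx G2 * ((Complex.I / 2) • cx Nᵀ)).trace =
      (1 / 4) * (((G1 * N * G2 * Nᵀ).trace : ℝ) : ℂ) := by
  simp only [Matrix.mul_smul, Matrix.smul_mul, cx_mul, smul_smul, Matrix.trace_smul, trace_cx,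
    smul_eq_mul]
  congr 1
  have h := Complex.I_mul_I
  linear_combination (-(1 / 4 : ℂ)) * h

theorem isUnit_cx {n : Type} [Fintype n] [DecidableEq n] (A : Matrix n n ℝ) (hA : A.PosDef) :
    IsUnit (cx A) := by
  rw [Matrix.isUnit_iff_isUnit_det, det_cx, isUnit_iff_ne_zero]
  exact_mod_cast hA.det_pos.ne'

theorem isUnit_blocks {m n : Type} [Fintype m] [DecidableEq m] [Fintype n] [DecidableEq n]
    (A : Matrix m m ℂ) (D : Matrix n n ℂ) (hA : IsUnit A) (hD : IsUnit D) :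
    IsUnit (fromBlocks A 0 0 D) := by
  rw [Matrix.isUnit_iff_isUnit_det] at hA hD ⊢
  rw [Matrix.det_fromBlocks_zero₂₁]
  exact hA.mul hD

theorem J1_zero {m n : Type} : J1 (fun _ : ℝ => (0 : Matrix m n ℂ)) = 0 := by
  ext i j
  show deriv (fun _ : ℝ => (0 : ℂ)) 0 = 0
  exact deriv_const _ _

theorem tlm (hPD : S_PD) : S_LM := by
  intro L hL
  obtain ⟨pDD, pNN, pDN, pND, -, hDD, hNN, hks⟩ := hPD L hL
  have p1 : (ks (lNN L) (lDD L) (lDD L) (lDN L)).PosDef := hks _ _ _ _ pNN pDD pDD pDN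
  have p2 : (ks (lDD L) (lNN L) (lDD L) (lDN L)).PosDef := hks _ _ _ _ pDD pNN pDD pDN
  have p3 : (ks (lDD L) (lDD L) (lNN L) (lDN L)).PosDef := hks _ _ _ _ pDD pDD pNN pDN
  have p4 : (ks (lDD L) (lDD L) (lDD L) (lND L)).PosDef := hks _ _ _ _ pDD pDD pDD pND
  have z11 : m11 L 0 = cx (ks (lNN L) (lDD L) (lDD L) (lDN L)) := by
    unfold m11
    rw [kap_zero, zero_smul, sub_zero]
    exact cov_zero _ _ _ _ _ hDD
  have z22 : m22 L 0 = cx (ks (lDD L) (lNN L) (lDD L) (lDN L)) := by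
    unfold m22
    rw [kap_zero, zero_smul, sub_zero]
    exact cov_zero _ _ _ _ _ hNN
  have z33 : m33 L 0 = cx (ks (lDD L) (lDD L) (lNN L) (lDN L)) := cov_zero _ _ _ _ _ hDD
  have z44 : m44 L 0 = cx (ks (lDD L) (lDD L) (lDD L) (lND L)) := cov_zero _ _ _ _ _ hDD
  have u11 : IsUnit (m11 L 0) := by rw [z11]; exact isUnit_cx _ p1
  have u22 : IsUnit (m22 L 0) := by rw [z22]; exact isUnit_cx _ p2
  have u33 : IsUnit (m33 L 0) := by rw [z33]; exact isUnit_cx _ p3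
  have u44 : IsUnit (m44 L 0) := by rw [z44]; exact isUnit_cx _ p4
  have uQ : IsUnit (fromBlocks (m22 L 0) 0 0 (m33 L 0)) := isUnit_blocks _ _ u22 u33
  have hX : (Matrix.fromCols (m12 L 0) (0 : Matrix (I1 L) (I3 L) ℂ)) = 0 := by
    rw [m12_zero]
    ext i j
    rcases j with j | j <;> rfl
  have hY : (Matrix.fromRows (m12 L 0)ᴴ (0 : Matrix (I3 L) (I1 L) ℂ)) = 0 := by
    rw [m12_zero, Matrix.conjTranspose_zero]
    ext i j
    rcases i with i | i <;> rfl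
  have zH : mH L 0 = fromBlocks (m11 L 0) 0 0 (fromBlocks (m22 L 0) 0 0 (m33 L 0)) := by
    unfold mH
    rw [hX, hY]
  have uH : IsUnit (mH L 0) := by rw [zH]; exact isUnit_blocks _ _ u11 uQ
  have e1 : ld (mF L) = ld (mH L) + ld (m44 L) := by
    have h := ld_blocks (mH L) (fun _ => 0) (fun _ => 0) (m44 L) rfl rfl uH u44
    rw [J1_zero, Matrix.mul_zero, Matrix.zero_mul, Matrix.zero_mul, Matrix.trace_zero, mul_zero,
      sub_zero] at h
    exact h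
  have e3 : ld (fun θ => fromBlocks (m22 L θ) 0 0 (m33 L θ)) = ld (m22 L) + ld (m33 L) := by
    have h := ld_blocks (m22 L) (fun _ => 0) (fun _ => 0) (m33 L) rfl rfl u22 u33
    rw [J1_zero, Matrix.mul_zero, Matrix.zero_mul, Matrix.zero_mul, Matrix.trace_zero, mul_zero,
      sub_zero] at h
    exact h
  have j1 : J1 (fun θ => Matrix.fromCols (m12 L θ) (0 : Matrix (I1 L) (I3 L) ℂ)) =
      Matrix.fromCols (J1 (m12 L)) 0 := by
    ext i j
    rcases j with j | j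
    · rfl
    · show deriv (fun _ : ℝ => (0 : ℂ)) 0 = 0
      exact deriv_const _ _
  have j2 : J1 (fun θ => Matrix.fromRows (m12 L θ)ᴴ (0 : Matrix (I3 L) (I1 L) ℂ)) =
      Matrix.fromRows (J1 (fun θ => (m12 L θ)ᴴ)) 0 := by
    ext i j
    rcases i with i | i
    · rfl
    · show deriv (fun _ : ℝ => (0 : ℂ)) 0 = 0
      exact deriv_const _ _
  have iQ : (fromBlocks (m22 L 0) 0 0 (m33 L 0))⁻¹ = fromBlocks (m22 L 0)⁻¹ 0 0 (m33 L 0)⁻¹ := by
    rw [Matrix.inv_fromBlocks_zero₂₁_of_isUnit_iff _ _ _ ⟨fun _ => u33, fun _ => u22⟩]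
    simp
  have i11 : (m11 L 0)⁻¹ = cx (ks (lNN L) (lDD L) (lDD L) (lDN L))⁻¹ := by
    rw [z11]; exact inv_cx _ p1.det_pos.ne'
  have i22 : (m22 L 0)⁻¹ = cx (ks (lDD L) (lNN L) (lDD L) (lDN L))⁻¹ := by
    rw [z22]; exact inv_cx _ p2.det_pos.ne'
  have e2 : ld (mH L) = ld (m11 L) + (ld (m22 L) + ld (m33 L)) -
      (1 / 2) * ((((ks (lNN L) (lDD L) (lDD L) (lDN L))⁻¹ * kN L *
      (ks (lDD L) (lNN L) (lDD L) (lDN L))⁻¹ * (kN L)ᵀ).trace : ℝ) : ℂ) := by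
    have h := ld_blocks (m11 L) (fun θ => Matrix.fromCols (m12 L θ) (0 : Matrix (I1 L) (I3 L) ℂ))
      (fun θ => Matrix.fromRows (m12 L θ)ᴴ (0 : Matrix (I3 L) (I1 L) ℂ))
      (fun θ => fromBlocks (m22 L θ) 0 0 (m33 L θ)) hX hY u11 uQ
    rw [e3, j1, j2, iQ, i11, i22, J1_m12, J1_m12s, Matrix.mul_fromCols, Matrix.mul_zero,
      Matrix.fromCols_mul_fromBlocks, Matrix.fromCols_mul_fromRows, Matrix.mul_zero, Matrix.mul_zero,
      add_zero, add_zero, tr_mixed] at h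
    refine Eq.trans h ?_
    ring
  have e4 : ld (m11 L) = ld (covL (1 / 2) (lNN L) (lDD L) (lDD L) (lDN L)) -
      (1 / 2) * (((ks (lNN L) (lDD L) (lDD L) (lDN L))⁻¹.trace : ℝ) : ℂ) := by
    have h := ld_sub_kap (covL (1 / 2) (lNN L) (lDD L) (lDD L) (lDN L)) (CD.covL _ _ _ _ _)
    rw [cov_zero _ _ _ _ _ hDD, inv_cx _ p1.det_pos.ne', trace_cx] at h
    exact h
  have e5 : ld (m22 L) = ld (covL 1 (lDD L) (lNN L) (lDD L) (lDN L)) -
      (1 / 2) * (((ks (lDD L) (lNN L) (lDD L) (lDN L))⁻¹.trace : ℝ) : ℂ) := by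
    have h := ld_sub_kap (covL 1 (lDD L) (lNN L) (lDD L) (lDN L)) (CD.covL _ _ _ _ _)
    rw [cov_zero _ _ _ _ _ hNN, inv_cx _ p2.det_pos.ne', trace_cx] at h
    exact h
  refine ⟨?_, cd_mF L, CD.covL _ _ _ _ _, cd_hC L, ?_⟩
  · rw [e1, e2, e4, e5]
    ring
  · show (fromBlocks (mH L 0) 0 0 (m44 L 0)).det ≠ 0
    rw [Matrix.det_fromBlocks_zero₂₁]
    exact mul_ne_zero ((Matrix.isUnit_iff_isUnit_det _).1 uH).ne_zero
      ((Matrix.isUnit_iff_isUnit_det _).1 u44).ne_zero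

end

end Pool.Agent.H632.AF
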